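import Pool.Agent.Helper89_KK.ASM2

/-! Squad KK, row ASM: the assembly theorem. -/

set_option autoImplicit false

open scoped BigOperators

namespace Pool.Agent.KK.H89

/-- large numbers -/
theorem ev (α β : ℝ) (hα : 0 < α) : ∃ n₀ : ℕ, ∀ n : ℕ, n₀ ≤ n → β ≤ α * n := by
  refine ⟨⌈β / α⌉₊, fun n hn => ?_⟩
  have h1 : β / α ≤ n := (Nat.le_ceil _).trans (by exact_mod_cast hn)
  rw [div_le_iff₀ hα] at h1
  linarith

theorem tight_short {V : Type} [DecidableEq V] {H : Finset (Finset V)} {k : ℕ} (hk : 2 ≤ k)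
    {l : List V} (hl : l.length = k - 1) : Tight H k l := by
  rintro s ⟨p, r, h⟩ hs
  have := congrArg List.length h
  simp only [List.length_append] at this
  omega

/-- the combinatorial part of the assembly -/
theorem asm_core {V : Type} [Fintype V] [DecidableEq V] {H : Finset (Finset V)} {k q : ℕ}
    {T : Fin q → Set (List V)} (jsq : JsqStmt) (rpl : RplStmt) (hk : 2 ≤ k)
    (hT : ∀ i, Tup k (T i)) (t : ℕ) (j : ℕ → Fin q) (x : Fin t → List V)
    (hj : ∀ i, ∃ l ≤ t, j l = i)
    (hx : ∀ l : Fin t, Seg H k (T (j l)) (T (j (l + 1))) (x l)) (a b : List V)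
    (ha : a ∈ T (j t)) (hb : b ∈ T (j 0)) (w : ℕ → List V)
    (hwm : ∀ r, (w r).length ≡ r [MOD k])
    (hwp : ∀ r, Path H k (a ++ w r ++ b))
    (A : Fin q → List V) (hA : ∀ i, Seg H k (T i) (T i) (A i)) (F ps : List (List V))
    (hF1 : F.Nodup) (hF2 : ∀ v ∈ F, v ≠ [])
    (hps : ∀ p ∈ ps, ∃ i, Seg H k (T i) (T i) p)
    (hnd : ((b ++ (List.ofFn x).flatten ++ (List.ofFn A).flatten ++ ps.flatten ++ a) ++
      F.flatten).Nodup)
    (hwd : ∀ r < k, ∀ v ∈ w r,
      v ∉ (List.ofFn x).flatten ++ (List.ofFn A).flatten ++ ps.flatten ++ F.flatten)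
    (hFc : ∀ i, ∀ c ∈ T i, ∀ d ∈ T i, c.Disjoint d → Path H k (c ++ d) ∨
      t + q + ps.length + 2 ≤ {w : List V | w ∈ F ∧ Path H k (c ++ w ++ d)}.ncard)
    (N : ℕ)
    (hN : Fintype.card V ≤ (b ++ (List.ofFn x).flatten ++ (List.ofFn A).flatten ++
      ps.flatten ++ a).length + N * k)
    (habs : ∀ ys : List (List V), (∀ y ∈ ys, y.length = k) →
          ((List.ofFn A).flatten ++ ys.flatten).Nodup → ys.length ≤ N →
          ∃ B : Fin q → List V, (∀ i, Path H k (B i) ∧ SameEnds (k - 1) (A i) (B i)) ∧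
            (List.ofFn B).flatten.Perm ((List.ofFn A).flatten ++ ys.flatten)) :
    Ham H k := by
  classical
  have hal : a.length = k - 1 := (hT _ a ha).1
  have hbl : b.length = k - 1 := (hT _ b hb).1
  have hand : a.Nodup := (hT _ a ha).2
  have hbnd : b.Nodup := (hT _ b hb).2
  obtain ⟨S, hSp, hSh, hSc⟩ := seq_exists A hA ps hps t j x hj hx a b ha hb hal hbl
  -- the lists of segments
  have hmap : ∀ B : Fin q → List V, ((S ++ [Sum.inr a]).map (Sum.elim B id)).Perm
      ((b :: List.ofFn x) ++ (List.ofFn B ++ ps) ++ [a]) := by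
    intro B
    refine ((hSp.append_right [Sum.inr a]).map (Sum.elim B id)).trans (List.Perm.of_eq ?_)
    rw [List.map_append, List.map_append, List.map_append, List.map_cons, List.map_map,
      List.map_map, List.map_map]
    have e1 : (Sum.elim B id : Fin q ⊕ List V → List V) ∘ Sum.inr = id := rfl
    have e2 : (Sum.elim B id : Fin q ⊕ List V → List V) ∘ Sum.inl = B := rfl
    have e3 : List.map B (List.finRange q) = List.ofFn B := List.ofFn_eq_map.symm
    rw [e1, e2, List.map_id, List.map_id, e3]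
    rfl
  have hflat : ∀ B : Fin q → List V, ((S ++ [Sum.inr a]).map (Sum.elim B id)).flatten.Perm
      (b ++ (List.ofFn x).flatten ++ (List.ofFn B).flatten ++ ps.flatten ++ a) := by
    intro B
    refine (hmap B).flatten.trans (List.Perm.of_eq ?_)
    simp only [List.flatten_append, List.flatten_cons, List.flatten_nil, List.append_nil,
      List.append_assoc]
  set PL : List (List V) := (S ++ [Sum.inr a]).map (Sum.elim A id) with hPL
  have hPLflat := hflat A
  rw [← hPL] at hPLflat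
  have hPLlen : PL.length = t + q + ps.length + 2 := by
    have := (hmap A).length_eq
    rw [← hPL] at this
    rw [this]
    simp only [List.length_append, List.length_cons, List.length_ofFn, List.length_nil]
    omega
  have hPLne : PL ≠ [] := by
    intro h
    rw [h] at hPLlen
    simp at hPLlen
  have hPLF : (PL.flatten ++ F.flatten).Nodup :=
    ((hPLflat.append_right F.flatten).nodup_iff).2 hnd
  have hgood : ∀ B : Fin q → List V, (∀ i, Path H k (B i) ∧ k - 1 ≤ (B i).length) →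
      ∀ p ∈ (S ++ [Sum.inr a]).map (Sum.elim B id), Path H k p ∧ k - 1 ≤ p.length := by
    intro B hB p hp
    have hp' := (hmap B).mem_iff.1 hp
    simp only [List.mem_append, List.mem_cons, List.not_mem_nil, or_false] at hp'
    rcases hp' with ((h | h) | (h | h)) | h
    · rw [h]; exact ⟨⟨hbnd, tight_short hk hbl⟩, hbl.ge⟩
    · obtain ⟨l, rfl⟩ := (List.mem_ofFn' _ _).1 h
      exact ⟨(hx l).1, (hx l).2.1⟩
    · obtain ⟨l, rfl⟩ := (List.mem_ofFn' _ _).1 h
      exact hB l
    · obtain ⟨i, hi⟩ := hps p h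
      exact ⟨hi.1, hi.2.1⟩
    · rw [h]; exact ⟨⟨hand, tight_short hk hal⟩, hal.ge⟩
  have hPLgood : ∀ p ∈ PL, Path H k p ∧ k - 1 ≤ p.length :=
    hgood A fun i => ⟨(hA i).1, (hA i).2.1⟩
  obtain ⟨ws, hws1, hws2, hws3, hws4, hws5, hws6, hws7⟩ := jsq k q V H T F PL hk hT hF1 hPLne hPLF
    hF2 hPLgood hSc (by rw [hPLlen]; exact hFc)
  obtain ⟨S'', hS''⟩ : ∃ S'', S = Sum.inr b :: S'' := by
    cases S with
    | nil => simp at hSh
    | cons y S'' =>
      rw [List.head?_cons, Option.some_inj] at hSh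
      exact ⟨S'', by rw [hSh]⟩
  have hhead : PL.head! = b := by
    rw [hPL, hS'']
    rfl
  have hlast : PL.getLast! = a := by
    rw [hPL, List.map_append, List.map_singleton, List.getLast!_eq_getLast?_getD,
      List.getLast?_concat]
    rfl
  rw [hhead, ← hbl, List.take_length] at hws6
  rw [hlast, hal, Nat.sub_self, List.drop_zero] at hws7
  rw [hbl] at hws6
  set P : List V := weave PL ws with hP
  have hPnd : P.Nodup := hws5.1
  have hPlen : P.length ≤ Fintype.card V := hPnd.length_le_card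
  -- the closing connector
  set r := (Fintype.card V - P.length) % k with hr
  have hrk : r < k := Nat.mod_lt _ (by omega)
  have hPa : P = P.take (P.length - (k - 1)) ++ a := by
    rw [← hws7, List.take_append_drop]
  have hclose : Tight H k (P ++ w r ++ b) := by
    rw [hPa, List.append_assoc _ (w r) b, List.append_assoc _ a]
    have h1 : Tight H k (a ++ (w r ++ b)) := by
      rw [← List.append_assoc]; exact (hwp r).2
    have h2 : Tight H k (P.take (P.length - (k - 1)) ++ a) := by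
      rw [← hPa]; exact hws5.2
    rw [← List.append_assoc]
    exact tight_glue hal.ge h2 h1
  have hwnd : (w r).Nodup := ((List.nodup_append.1 (List.nodup_append.1 (hwp r).1).1)).2.1
  have hwa : ∀ v ∈ w r, v ∉ a := fun v hv hva =>
    (List.nodup_append.1 (List.nodup_append.1 (hwp r).1).1).2.2 v hva v hv rfl
  have hwb : ∀ v ∈ w r, v ∉ b := fun v hv hvb =>
    (List.nodup_append.1 (hwp r).1).2.2 v (List.mem_append_right _ hv) v hvb rfl
  have hPw : (P ++ w r).Nodup := by
    rw [List.nodup_append]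
    refine ⟨hPnd, hwnd, ?_⟩
    rintro v hv v' hv' rfl
    have h1 := hws4.mem_iff.1 hv
    have h2 := hwd r hrk v hv'
    simp only [List.mem_append, not_or] at h2
    rcases List.mem_append.1 h1 with h | h
    · have h3 := hPLflat.mem_iff.1 h
      simp only [List.mem_append] at h3
      have h4 := hwa v hv'
      have h5 := hwb v hv'
      tauto
    · obtain ⟨w', hw', hvw⟩ := List.mem_flatten.1 h
      rcases hws2 w' hw' with h3 | h3
      · rw [h3] at hvw
        simp at hvw
      · exact h2.2 (List.mem_flatten.2 ⟨w', h3, hvw⟩)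
  -- the remaining vertices
  set R : Finset V := Finset.univ \ (P ++ w r).toFinset with hR
  have hRcard : R.card + (P.length + (w r).length) = Fintype.card V := by
    have h1 := Finset.card_sdiff_add_card_eq_card (Finset.subset_univ (P ++ w r).toFinset)
    rw [List.toFinset_card_of_nodup hPw, List.length_append, Finset.card_univ] at h1
    exact h1
  have hdvd : k ∣ R.card := by
    have h1 : (w r).length ≡ Fintype.card V - P.length [MOD k] :=
      (hwm r).trans (Nat.mod_modEq _ _)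
    have h2 := (Nat.modEq_iff_dvd' (by omega)).1 h1
    have h3 : Fintype.card V - P.length - (w r).length = R.card := by omega
    rwa [h3] at h2
  obtain ⟨m, hm⟩ := hdvd
  obtain ⟨ys, hys1, hys2, hys3⟩ := chop k m R.toList (by rw [Finset.length_toList, hm, mul_comm])
  have hAP : ∀ v ∈ (List.ofFn A).flatten, v ∈ P := by
    intro v hv
    refine hws4.mem_iff.2 (List.mem_append_left _ (hPLflat.mem_iff.2 ?_))
    simp only [List.mem_append]
    tauto
  have hRP : ∀ v ∈ R, v ∉ P ++ w r := by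
    intro v hv h
    exact (Finset.mem_sdiff.1 hv).2 (List.mem_toFinset.2 h)
  have hAnd : (List.ofFn A).flatten.Nodup := by
    have h1 := (List.nodup_append.1 hnd).1
    have h2 := (List.nodup_append.1 h1).1
    have h3 := (List.nodup_append.1 h2).1
    exact (List.nodup_append.1 h3).2.1
  have hPlen2 : (b ++ (List.ofFn x).flatten ++ (List.ofFn A).flatten ++
      ps.flatten ++ a).length ≤ P.length := by
    rw [← hPLflat.length_eq, hws4.length_eq, List.length_append]
    omega
  obtain ⟨B, hB1, hB2⟩ := habs ys hys2 (by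
      rw [hys3, List.nodup_append]
      refine ⟨hAnd, Finset.nodup_toList _, ?_⟩
      rintro v hv v' hv' rfl
      exact hRP v (Finset.mem_toList.1 hv') (List.mem_append_left _ (hAP v hv)))
    (by
      rw [hys1]
      have h1 : R.card ≤ N * k := by omega
      rw [hm, mul_comm] at h1
      exact Nat.le_of_mul_le_mul_right h1 (by omega))
  have hBl : ∀ i, k - 1 ≤ (B i).length := by
    intro i
    have h1 := (hB1 i).2.1
    have h2 := congrArg List.length h1
    rw [List.length_take, List.length_take] at h2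
    have := (hA i).2.1
    omega
  set QL : List (List V) := (S ++ [Sum.inr a]).map (Sum.elim B id) with hQL
  have hQLflat := hflat B
  rw [← hQL] at hQLflat
  have hQLgood : ∀ p ∈ QL, Path H k p ∧ k - 1 ≤ p.length :=
    hgood B fun i => ⟨(hB1 i).1, hBl i⟩
  have hall : List.Forall₂ (fun p q => SameEnds (k - 1) p q ∧ k - 1 ≤ p.length ∧
      k - 1 ≤ q.length ∧ Tight H k q) PL QL := by
    rw [hPL, hQL, List.forall₂_map_left_iff, List.forall₂_map_right_iff, List.forall₂_same]
    intro u hu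
    have h1 := hPLgood _ (List.mem_map_of_mem hu)
    have h2 := hQLgood _ (List.mem_map_of_mem hu)
    refine ⟨?_, h1.2, h2.2, h2.1.2⟩
    cases u with
    | inl i => exact (hB1 i).2
    | inr p => exact ⟨rfl, rfl⟩
  obtain ⟨hr1, hr2⟩ := rpl k V H hk PL QL ws hPLne hall
  have hends := (hr1 hws5.2).2
  have hcyc := hr2 (w r) (by
    rw [← hP, hws6]
    exact hclose)
  have htakeQ : (weave QL ws).take (k - 1) = b := by
    rw [← hends.1, ← hP, hws6]
  have hQlen : k - 1 ≤ (weave QL ws).length := by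
    have h1 := congrArg List.length htakeQ
    rw [List.length_take, hbl] at h1
    omega
  have hQLlen : QL.length = PL.length := by rw [hQL, hPL, List.length_map, List.length_map]
  have hperm : (weave QL ws ++ w r).Perm ((P ++ w r) ++ R.toList) := by
    have h1 := weave_perm QL ws (by omega)
    rw [hys3] at hB2
    rw [List.perm_iff_count] at h1 hQLflat hPLflat hws4 hB2 ⊢
    intro v
    have e1 := h1 v
    have e2 := hQLflat v
    have e3 := hPLflat v
    have e4 := hws4 v
    have e5 := hB2 v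
    simp only [List.count_append] at e1 e2 e3 e4 e5 ⊢
    omega
  have hfull : ((P ++ w r) ++ R.toList).Nodup := by
    rw [List.nodup_append]
    refine ⟨hPw, Finset.nodup_toList _, ?_⟩
    rintro v hv v' hv' rfl
    exact hRP v (Finset.mem_toList.1 hv') hv
  refine ⟨weave QL ws ++ w r, hperm.nodup_iff.2 hfull, ?_, ?_⟩
  · intro v
    rw [hperm.mem_iff, List.mem_append, Finset.mem_toList]
    by_cases hv : v ∈ P ++ w r
    · exact Or.inl hv
    · refine Or.inr (Finset.mem_sdiff.2 ⟨Finset.mem_univ _, ?_⟩)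
      rwa [List.mem_toFinset]
  · rw [List.take_append_of_le_length hQlen]
    exact hcyc

theorem length_le_flatten {α : Type} (m : ℕ) : ∀ L : List (List α), (∀ l ∈ L, m ≤ l.length) →
    L.length * m ≤ L.flatten.length
  | [], _ => by simp
  | l :: L, h => by
    have h1 := length_le_flatten m L fun l' hl' => h l' (List.mem_cons_of_mem _ hl')
    have h2 := h l List.mem_cons_self
    rw [List.length_cons, List.flatten_cons, List.length_append, Nat.succ_mul]
    omega

theorem asm (abs : AbsStmt) (cnf : CnfStmt) (jsq : JsqStmt) (rpl : RplStmt) : AsmStmt := by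
  intro k M q C ls c hk hc hq hls
  obtain ⟨c₁, γ₁₀, hc₁, hγ₁₀, habs⟩ := abs k M q (C + 2 * k + k * M) ls c hk hc hq hls
  obtain ⟨c₂, γ₂₀, hc₂, hγ₂₀, hcnf⟩ := cnf k M q c hk hc
  have hkR : (2 : ℝ) ≤ k := by exact_mod_cast hk
  obtain ⟨γ₁, hγ₁, hγ₁a, hγ₁b, hγ₁c⟩ : ∃ γ₁ : ℝ, 0 < γ₁ ∧ γ₁ ≤ γ₁₀ ∧ 2 * γ₁ ≤ c₂ ∧
      3 * γ₁ ≤ 1 / 200 := by
    refine ⟨min γ₁₀ (min (c₂ / 2) (1 / 600)), ?_, min_le_left _ _, ?_, ?_⟩
    · exact lt_min hγ₁₀ (lt_min (by linarith) (by norm_num))
    · have := (min_le_right γ₁₀ (min (c₂ / 2) (1 / 600))).trans (min_le_left _ _)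
      linarith
    · have := (min_le_right γ₁₀ (min (c₂ / 2) (1 / 600))).trans (min_le_right _ _)
      linarith
  obtain ⟨γ₂, hγ₂, hγ₂a, hγ₂b, hγ₂c⟩ : ∃ γ₂ : ℝ, 0 < γ₂ ∧ γ₂ ≤ γ₂₀ ∧ γ₂ ≤ γ₁ ∧
      γ₂ ≤ c₁ * γ₁ * k / 4 := by
    have hpos : 0 < c₁ * γ₁ * k / 4 := by positivity
    refine ⟨min γ₂₀ (min γ₁ (c₁ * γ₁ * k / 4)), lt_min hγ₂₀ (lt_min hγ₁ hpos),
      min_le_left _ _, ?_, ?_⟩
    · exact (min_le_right _ _).trans (min_le_left _ _)
    · exact (min_le_right _ _).trans (min_le_right _ _)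
  obtain ⟨n₁, habs⟩ := habs γ₁ hγ₁ hγ₁a
  obtain ⟨n₂, hcnf⟩ := hcnf γ₂ hγ₂ hγ₂a
  have hcg : 0 < c₂ * γ₂ := mul_pos hc₂ hγ₂
  have hcg1 : 0 < c₁ * γ₁ * k / 4 := by positivity
  obtain ⟨n₃, hn₃⟩ := ev c (C + k) hc
  obtain ⟨n₄, hn₄⟩ := ev c (M * C + 1) hc
  obtain ⟨n₅, hn₅⟩ := ev γ₁ (C + 2 * k + k * M) hγ₁
  obtain ⟨n₆, hn₆⟩ := ev (c₁ * γ₁ * k / 4) (k * M + k) hcg1
  obtain ⟨n₇, hn₇⟩ := ev (c₂ * γ₂ / 2) (C + q + 2) (by linarith)
  refine ⟨c₁ * γ₁ * k / 4, ⌈2 / (c₂ * γ₂)⌉₊,
    n₁ + n₂ + n₃ + n₄ + n₅ + n₆ + n₇ + 1, hcg1, ?_⟩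
  intro V _ _ H T i₀ hn hT hJ hJA hR hG hTour hCov
  classical
  have hnpos : 0 < Fintype.card V := by omega
  have hnR : (0 : ℝ) < Fintype.card V := by exact_mod_cast hnpos
  have e3 := hn₃ (Fintype.card V) (by omega)
  have e4 := hn₄ (Fintype.card V) (by omega)
  have e5 := hn₅ (Fintype.card V) (by omega)
  have e6 := hn₆ (Fintype.card V) (by omega)
  have e7 := hn₇ (Fintype.card V) (by omega)
  obtain ⟨t, j, x, hj0, hjt, hjall, hx, hxnd, hxlen⟩ := hTour
  -- the crossing paths
  set W₀ : Finset V := (List.ofFn x).flatten.toFinset with hW₀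
  have hW₀c : W₀.card ≤ C := (List.toFinset_card_le _).trans hxlen
  obtain ⟨a, haT, haW⟩ := hR i₀ W₀ (by
    have : (W₀.card : ℝ) ≤ C := by exact_mod_cast hW₀c
    linarith)
  have hal : a.length = k - 1 := (hT _ a haT).1
  obtain ⟨b, hbT, hbW⟩ := hR i₀ (W₀ ∪ a.toFinset) (by
    have h1 : (W₀ ∪ a.toFinset).card ≤ C + k := by
      refine (Finset.card_union_le _ _).trans ?_
      have := List.toFinset_card_le a
      omega
    have h2 : ((W₀ ∪ a.toFinset).card : ℝ) ≤ C + k := by exact_mod_cast h1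
    linarith)
  have hbl : b.length = k - 1 := (hT _ b hbT).1
  have hab : ∀ v ∈ b, v ∉ a := fun v hv hva =>
    hbW v hv (Finset.mem_union_right _ (List.mem_toFinset.2 hva))
  have hbx : ∀ v ∈ b, v ∉ W₀ := fun v hv hva => hbW v hv (Finset.mem_union_left _ hva)
  -- the closing connectors
  have hw : ∀ r : ℕ, ∃ w : List V, w.length ≤ M ∧ w.length ≡ r [MOD k] ∧
      Path H k (a ++ w ++ b) ∧ ∀ v ∈ w, v ∉ W₀ := by
    intro r
    obtain ⟨m, hmM, hmr, hm⟩ := hJA a haT b hbT (fun v hva hvb => hab v hvb hva) r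
    obtain ⟨w, hw1, hw2, hw3⟩ := conn (C := C) W₀ hmM hW₀c (by linarith) hc hnpos hm
    exact ⟨w, by rw [hw1]; exact hmM, by rw [hw1]; exact hmr, hw2, hw3⟩
  choose w hwM hwm hwp hwx using hw
  set W₁ : Finset V := W₀ ∪ a.toFinset ∪ b.toFinset ∪
    (Finset.range k).biUnion fun r => (w r).toFinset with hW₁
  have hbiU : ((Finset.range k).biUnion fun r => (w r).toFinset).card ≤ k * M := by
    refine Finset.card_biUnion_le.trans ?_
    calc ∑ r ∈ Finset.range k, (w r).toFinset.card ≤ ∑ _r ∈ Finset.range k, M :=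
          Finset.sum_le_sum fun r _ => (List.toFinset_card_le _).trans (hwM r)
      _ = k * M := by rw [Finset.sum_const, Finset.card_range, smul_eq_mul]
  have hW₁c : W₁.card ≤ W₀.card + a.length + b.length + k * M := by
    refine (Finset.card_union_le _ _).trans (Nat.add_le_add ?_ hbiU)
    refine (Finset.card_union_le _ _).trans (Nat.add_le_add ?_ (List.toFinset_card_le _))
    exact (Finset.card_union_le _ _).trans (Nat.add_le_add le_rfl (List.toFinset_card_le _))
  obtain ⟨A, hA, hAnd, hAW, hAlen, habsorb⟩ := habs V H T (by omega) hT hJ hR hG W₁ (by omega)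
  set AA := (List.ofFn A).flatten with hAA
  set W₂ : Finset V := W₁ ∪ AA.toFinset with hW₂
  have hW₂c : W₂.card ≤ W₁.card + AA.length :=
    (Finset.card_union_le _ _).trans (Nat.add_le_add le_rfl (List.toFinset_card_le _))
  have hW₁R : (W₁.card : ℝ) ≤ C + 2 * k + k * M := by
    have : W₁.card ≤ C + 2 * k + k * M := by omega
    exact_mod_cast this
  have hW₂R : (W₂.card : ℝ) ≤ 2 * γ₁ * Fintype.card V := by
    have h1 : (W₂.card : ℝ) ≤ W₁.card + AA.length := by exact_mod_cast hW₂c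
    linarith
  obtain ⟨F, hF1, hF2, hF3, hF4, hF5, hF6⟩ := hcnf V H T (by omega) hT hJ W₂ (by
    have := mul_le_mul_of_nonneg_right hγ₁b hnR.le
    linarith)
  set W₃ : Finset V := W₂ ∪ F.flatten.toFinset with hW₃
  have hW₃c : W₃.card ≤ W₂.card + F.flatten.length :=
    (Finset.card_union_le _ _).trans (Nat.add_le_add le_rfl (List.toFinset_card_le _))
  have hW₃R : (W₃.card : ℝ) ≤ 1 / 200 * Fintype.card V := by
    have h1 : (W₃.card : ℝ) ≤ W₂.card + F.flatten.length := by exact_mod_cast hW₃c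
    have h2 := mul_le_mul_of_nonneg_right hγ₂b hnR.le
    have h3 := mul_le_mul_of_nonneg_right hγ₁c hnR.le
    linarith
  obtain ⟨ps, hps1, hps2, hps3, hps4⟩ := hCov W₃ hW₃R
  -- sizes
  have ht : t ≤ C := by
    have h1 := length_le_flatten 1 (List.ofFn x) (by
      intro l hl
      obtain ⟨i, rfl⟩ := (List.mem_ofFn' _ _).1 hl
      have := (hx i).2.1
      omega)
    rw [List.length_ofFn, mul_one] at h1
    exact h1.trans hxlen
  have hpsn : ps.length * ⌈2 / (c₂ * γ₂)⌉₊ ≤ Fintype.card V :=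
    (length_le_flatten _ ps fun l hl => (hps3 l hl).1).trans hps1.length_le_card
  have hpsR : (ps.length : ℝ) ≤ c₂ * γ₂ / 2 * Fintype.card V := by
    have h1 : (2 / (c₂ * γ₂) : ℝ) ≤ (⌈2 / (c₂ * γ₂)⌉₊ : ℝ) := Nat.le_ceil _
    have h2 : (ps.length : ℝ) * (⌈2 / (c₂ * γ₂)⌉₊ : ℝ) ≤ Fintype.card V := by
      exact_mod_cast hpsn
    have h3 : (ps.length : ℝ) * (2 / (c₂ * γ₂)) ≤ Fintype.card V :=
      (mul_le_mul_of_nonneg_left h1 (Nat.cast_nonneg _)).trans h2
    have h4 : (ps.length : ℝ) = (ps.length : ℝ) * (2 / (c₂ * γ₂)) * (c₂ * γ₂ / 2) := by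
      field_simp
    rw [h4, mul_comm (c₂ * γ₂ / 2)]
    exact mul_le_mul_of_nonneg_right h3 (by linarith)
  have hnum : ((t + q + ps.length + 2 : ℕ) : ℝ) ≤ c₂ * γ₂ * Fintype.card V := by
    push_cast
    have h1 : (t : ℝ) ≤ C := by exact_mod_cast ht
    linarith
  have haX : ∀ v ∈ a, v ∈ W₁ := fun v hv => by
    rw [hW₁]; simp only [Finset.mem_union, List.mem_toFinset]; tauto
  have hbX : ∀ v ∈ b, v ∈ W₁ := fun v hv => by
    rw [hW₁]; simp only [Finset.mem_union, List.mem_toFinset]; tauto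
  have hxX : ∀ v ∈ (List.ofFn x).flatten, v ∈ W₁ := fun v hv => by
    rw [hW₁, hW₀]; simp only [Finset.mem_union, List.mem_toFinset]; tauto
  have hwX : ∀ r < k, ∀ v ∈ w r, v ∈ W₁ := fun r hr v hv => by
    rw [hW₁, Finset.mem_union, Finset.mem_biUnion]
    exact Or.inr ⟨r, Finset.mem_range.2 hr, List.mem_toFinset.2 hv⟩
  have hAA1 : ∀ v ∈ AA, v ∉ W₁ := by
    intro v hv
    obtain ⟨l, hl, hvl⟩ := List.mem_flatten.1 hv
    obtain ⟨i, rfl⟩ := (List.mem_ofFn' _ _).1 hl
    exact hAW i v hvl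
  have hFW1 : ∀ v ∈ F.flatten, v ∉ W₁ := fun v hv h => hF4 v hv (Finset.mem_union_left _ h)
  have hFAA : ∀ v ∈ F.flatten, v ∉ AA := fun v hv h =>
    hF4 v hv (Finset.mem_union_right _ (List.mem_toFinset.2 h))
  have hpW1 : ∀ v ∈ ps.flatten, v ∉ W₁ := fun v hv h => hps2 v hv
    (Finset.mem_union_left _ (Finset.mem_union_left _ h))
  have hpAA : ∀ v ∈ ps.flatten, v ∉ AA := fun v hv h => hps2 v hv
    (Finset.mem_union_left _ (Finset.mem_union_right _ (List.mem_toFinset.2 h)))
  have hpF : ∀ v ∈ ps.flatten, v ∉ F.flatten := fun v hv h => hps2 v hv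
    (Finset.mem_union_right _ (List.mem_toFinset.2 h))
  have hax : ∀ v ∈ a, v ∉ (List.ofFn x).flatten := fun v hv h =>
    haW v hv (List.mem_toFinset.2 h)
  have hbx' : ∀ v ∈ b, v ∉ (List.ofFn x).flatten := fun v hv h =>
    hbx v hv (List.mem_toFinset.2 h)
  refine asm_core jsq rpl hk hT t j x hjall hx a b (by rw [hjt]; exact haT)
    (by rw [hj0]; exact hbT) w hwm hwp A hA F ps hF2 hF3
    (fun p hp => (hps3 p hp).2) ?_ ?_ ?_ ⌊c₁ * γ₁ * Fintype.card V⌋₊ ?_ ?_
  · rw [List.nodup_append, List.nodup_append, List.nodup_append, List.nodup_append,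
      List.nodup_append]
    refine ⟨⟨⟨⟨⟨(hT _ b hbT).2, hxnd, ?_⟩, hAnd, ?_⟩, hps1, ?_⟩, (hT _ a haT).2, ?_⟩, hF1, ?_⟩
    · rintro v hv v' hv' rfl
      exact hbx' v hv hv'
    · rintro v hv v' hv' rfl
      rcases List.mem_append.1 hv with h | h
      · exact hAA1 v hv' (hbX v h)
      · exact hAA1 v hv' (hxX v h)
    · rintro v hv v' hv' rfl
      simp only [List.mem_append] at hv
      rcases hv with (h | h) | h
      · exact hpW1 v hv' (hbX v h)
      · exact hpW1 v hv' (hxX v h)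
      · exact hpAA v hv' h
    · rintro v hv v' hv' rfl
      simp only [List.mem_append] at hv
      rcases hv with ((h | h) | h) | h
      · exact hab v h hv'
      · exact hax v hv' h
      · exact hAA1 v h (haX v hv')
      · exact hpW1 v h (haX v hv')
    · rintro v hv v' hv' rfl
      simp only [List.mem_append] at hv
      rcases hv with (((h | h) | h) | h) | h
      · exact hFW1 v hv' (hbX v h)
      · exact hFW1 v hv' (hxX v h)
      · exact hFAA v hv' h
      · exact hpF v h hv'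
      · exact hFW1 v hv' (haX v h)
  · intro r hr v hv hmem
    simp only [List.mem_append] at hmem
    rcases hmem with ((h | h) | h) | h
    · exact hwx r v hv (List.mem_toFinset.2 h)
    · exact hAA1 v h (hwX r hr v hv)
    · exact hpW1 v h (hwX r hr v hv)
    · exact hFW1 v h (hwX r hr v hv)
  · intro i u hu v hv huv
    rcases hF6 i u hu v hv huv with h | h
    · exact Or.inl h
    · refine Or.inr ?_
      have := hnum.trans h
      exact_mod_cast this
  · have h1 : (W₃.card : ℝ) ≤ (List.ofFn x).flatten.length + a.length + b.length + k * M +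
        AA.length + F.flatten.length := by
      have h2 : W₃.card ≤ (List.ofFn x).flatten.length + a.length + b.length + k * M +
          AA.length + F.flatten.length := by
        have h3 : W₀.card ≤ (List.ofFn x).flatten.length := List.toFinset_card_le _
        omega
      exact_mod_cast h2
    have h2 : c₁ * γ₁ * Fintype.card V < (⌊c₁ * γ₁ * Fintype.card V⌋₊ : ℝ) + 1 :=
      Nat.lt_floor_add_one _
    have h3 := mul_le_mul_of_nonneg_right hγ₂c hnR.le
    have h4 : c₁ * γ₁ * Fintype.card V * k ≤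
        ((⌊c₁ * γ₁ * Fintype.card V⌋₊ : ℝ) + 1) * k :=
      mul_le_mul_of_nonneg_right h2.le (by linarith)
    have h5 : (Fintype.card V : ℝ) ≤ ((b ++ (List.ofFn x).flatten ++ AA ++
        ps.flatten ++ a).length : ℝ) + (⌊c₁ * γ₁ * Fintype.card V⌋₊ : ℝ) * k := by
      simp only [List.length_append, Nat.cast_add]
      nlinarith
    exact_mod_cast h5
  · intro ys hy1 hy2 hy3
    refine habsorb ys hy1 hy2 ?_
    have h1 : (ys.length : ℝ) ≤ (⌊c₁ * γ₁ * Fintype.card V⌋₊ : ℝ) := by exact_mod_cast hy3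
    exact h1.trans (Nat.floor_le (by positivity))

end Pool.Agent.KK.H89
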