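import Pool.Agent.KK.StmtsC

/-! Squad KK, row ASM: auxiliary lemmas. -/

set_option autoImplicit false

open scoped BigOperators

namespace Pool.Agent.KK.H89

section
variable {V : Type} [DecidableEq V]

/-- gluing tight lists along `k - 1` entries -/
theorem tight_glue {H : Finset (Finset V)} {k : ℕ} {u a v : List V} (ha : k - 1 ≤ a.length)
    (h1 : Tight H k (u ++ a)) (h2 : Tight H k (a ++ v)) : Tight H k (u ++ a ++ v) := by
  rintro s ⟨p, q, hpq⟩ hs
  rcases List.append_eq_append_iff.1 hpq with ⟨c, hc1, hc2⟩ | ⟨c, hc1, hc2⟩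
  · exact h1 s ⟨p, c, hc1.symm⟩ hs
  · rw [List.append_assoc u a c] at hc1
    rcases List.append_eq_append_iff.1 hc1 with ⟨d, hd1, hd2⟩ | ⟨d, hd1, hd2⟩
    · -- `u = p ++ d`, `s = d ++ (a ++ c)`
      have hl : d.length + (a.length + c.length) = k := by
        rw [← hs, hd2, List.length_append, List.length_append]
      rcases Nat.eq_zero_or_pos d.length with h0 | h0
      · have hd0 : d = [] := List.length_eq_zero_iff.1 h0
        refine h2 s ⟨[], q, ?_⟩ hs
        rw [hd2, hd0, hc2]
        simp
      · have hc0 : c = [] := List.length_eq_zero_iff.1 (by omega)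
        refine h1 s ⟨p, [], ?_⟩ hs
        rw [hd2, hd1, hc0]
        simp
    · -- `p = u ++ d`, `a ++ c = d ++ s`
      refine h2 s ⟨d, q, ?_⟩ hs
      rw [hc2, ← List.append_assoc, hd2]

end

/-- inserting elements into a labelled chain -/
theorem ins {α : Type} {q : ℕ} (s e : α → Fin q → Prop) (z : α × Fin q) :
    ∀ (I : List α) (S : List (α × Fin q)), (∀ i, ∃ p ∈ S, p.2 = i) →
      List.IsChain (fun u v : α × Fin q => e u.1 u.2 ∧ s v.1 u.2) (S ++ [z]) →
      (∀ u ∈ I, ∃ i, s u i ∧ e u i) →
      ∃ S' : List (α × Fin q), (S'.map Prod.fst).Perm (S.map Prod.fst ++ I) ∧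
        S'.head? = S.head? ∧
        List.IsChain (fun u v : α × Fin q => e u.1 u.2 ∧ s v.1 u.2) (S' ++ [z]) := by
  intro I
  induction I with
  | nil =>
    intro S _ hc _
    exact ⟨S, by simp, rfl, hc⟩
  | cons u I ih =>
    intro S hl hc hI
    obtain ⟨i, hsi, hei⟩ := hI u (by simp)
    obtain ⟨p, hp, hpi⟩ := hl i
    obtain ⟨S₁, S₂, rfl⟩ := List.append_of_mem hp
    have g1 : ∀ j, ∃ x ∈ S₁ ++ p :: (u, i) :: S₂, x.2 = j := by
      intro j
      obtain ⟨x, hx, hxj⟩ := hl j
      refine ⟨x, ?_, hxj⟩
      rw [List.mem_append, List.mem_cons] at hx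
      rw [List.mem_append, List.mem_cons, List.mem_cons]
      tauto
    have g2 : List.IsChain (fun u v : α × Fin q => e u.1 u.2 ∧ s v.1 u.2)
        ((S₁ ++ p :: (u, i) :: S₂) ++ [z]) := by
      rw [List.append_assoc, List.cons_append] at hc
      rw [List.append_assoc, List.cons_append, List.cons_append]
      rw [List.isChain_split] at hc
      rw [List.isChain_split]
      refine ⟨hc.1, ?_⟩
      have h4 := hc.2
      have hS : S₂ ++ [z] ≠ [] := by simp
      rw [List.isChain_cons] at h4
      rw [List.isChain_cons_cons, List.isChain_cons]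
      have hpe : e p.1 i := by
        obtain ⟨y, hy⟩ : ∃ y, (S₂ ++ [z]).head? = some y := by
          cases S₂ with
          | nil => exact ⟨z, rfl⟩
          | cons y _ => exact ⟨y, rfl⟩
        rw [← hpi]
        exact (h4.1 y hy).1
      refine ⟨⟨by rw [hpi]; exact hpe, by rw [hpi]; exact hsi⟩, ?_, h4.2⟩
      intro y hy
      have := h4.1 y hy
      exact ⟨hei, by rw [← hpi]; exact this.2⟩
    obtain ⟨S', h1, h2, h3⟩ := ih (S₁ ++ p :: (u, i) :: S₂) g1 g2
      (fun x hx => hI x (List.mem_cons_of_mem _ hx))
    refine ⟨S', h1.trans ?_, h2.trans ?_, h3⟩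
    · classical
      refine List.perm_iff_count.2 fun x => ?_
      simp only [List.map_append, List.map_cons, List.count_append, List.count_cons]
      omega
    · cases S₁ <;> rfl

/-- cutting a list into pieces of length `k` -/
theorem chop {α : Type} (k : ℕ) : ∀ (m : ℕ) (l : List α), l.length = m * k →
    ∃ ys : List (List α), ys.length = m ∧ (∀ y ∈ ys, y.length = k) ∧ ys.flatten = l := by
  intro m
  induction m with
  | zero =>
    intro l hl
    have : l = [] := List.length_eq_zero_iff.1 (by simpa using hl)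
    exact ⟨[], rfl, by simp, by simp [this]⟩
  | succ m ih =>
    intro l hl
    obtain ⟨ys, h1, h2, h3⟩ := ih (l.drop k) (by rw [List.length_drop, hl, Nat.succ_mul]; omega)
    refine ⟨l.take k :: ys, by simp [h1], ?_, ?_⟩
    · intro y hy
      rcases List.mem_cons.1 hy with rfl | hy
      · rw [List.length_take, hl, Nat.succ_mul]; omega
      · exact h2 y hy
    · rw [List.flatten_cons, h3, List.take_append_drop]

/-- the vertices of a woven list -/
theorem weave_perm {α : Type} : ∀ (ps ws : List (List α)), ws.length < ps.length →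
    (weave ps ws).Perm (ps.flatten ++ ws.flatten)
  | [], _, h => by simp at h
  | [p], ws, h => by
      have : ws = [] := by simpa using h
      subst this
      simp [weave]
  | p :: q :: ps, [], _ => by
      rw [weave, List.flatten_nil, List.append_nil, List.flatten_cons]
      refine List.Perm.append_left p ?_
      have := weave_perm (q :: ps) [] (by simp)
      simpa using this
  | p :: q :: ps, w :: ws, h => by
      rw [weave]
      have h1 := weave_perm (q :: ps) ws (by simp at h ⊢; omega)
      classical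
      rw [List.perm_iff_count] at h1 ⊢
      intro x
      have := h1 x
      simp only [List.flatten_cons, List.count_append] at this ⊢
      omega

/-- functions which meet a small set -/
theorem hit_card {V : Type} [Fintype V] [DecidableEq V] (m : ℕ) (W : Finset V) :
    {w : Fin m → V | ∃ i, w i ∈ W}.ncard ≤ m * (W.card * Fintype.card V ^ (m - 1)) := by
  classical
  have h1 : {w : Fin m → V | ∃ i, w i ∈ W} =
      ((Finset.univ.filter fun w : Fin m → V => ∃ i, w i ∈ W : Finset (Fin m → V)) :
        Set (Fin m → V)) := by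
    ext w; simp
  rw [h1, Set.ncard_coe_finset]
  have h2 : (Finset.univ.filter fun w : Fin m → V => ∃ i, w i ∈ W) ⊆
      Finset.univ.biUnion fun i : Fin m =>
        Fintype.piFinset (fun j => if j = i then W else Finset.univ) := by
    intro w hw
    obtain ⟨i, hi⟩ := (Finset.mem_filter.1 hw).2
    refine Finset.mem_biUnion.2 ⟨i, Finset.mem_univ _, Fintype.mem_piFinset.2 fun j => ?_⟩
    split_ifs with h
    · rw [h]; exact hi
    · exact Finset.mem_univ _
  refine (Finset.card_le_card h2).trans (Finset.card_biUnion_le.trans ?_)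
  have h3 : ∀ i : Fin m, (Fintype.piFinset (fun j => if j = i then W else Finset.univ)).card =
      W.card * Fintype.card V ^ (m - 1) := by
    intro i
    rw [Fintype.card_piFinset, ← Finset.mul_prod_erase Finset.univ _ (Finset.mem_univ i),
      if_pos rfl]
    congr 1
    rw [Finset.prod_congr rfl (g := fun _ => Fintype.card V)]
    · rw [Finset.prod_const, Finset.card_erase_of_mem (Finset.mem_univ i), Finset.card_univ,
        Fintype.card_fin]
    · intro j hj
      rw [if_neg (Finset.ne_of_mem_erase hj), Finset.card_univ]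
  rw [Finset.sum_congr rfl fun i _ => h3 i, Finset.sum_const, Finset.card_univ,
    Fintype.card_fin, smul_eq_mul]

/-- a connector which avoids a small set -/
theorem conn {V : Type} [Fintype V] [DecidableEq V] {H : Finset (Finset V)} {k m M C : ℕ}
    {a b : List V} {c : ℝ} (W : Finset V) (hm : m ≤ M) (hW : W.card ≤ C)
    (hn : (M : ℝ) * C < c * Fintype.card V) (hc : 0 < c) (hV : 0 < Fintype.card V)
    (h : c * (Fintype.card V : ℝ) ^ m ≤ con H k m a b) :
    ∃ w : List V, w.length = m ∧ Path H k (a ++ w ++ b) ∧ ∀ v ∈ w, v ∉ W := by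
  classical
  by_contra hno
  push Not at hno
  have h1 : {w : Fin m → V | Path H k (a ++ List.ofFn w ++ b)} ⊆
      {w : Fin m → V | ∃ i, w i ∈ W} := by
    intro w hw
    obtain ⟨v, hv, hvW⟩ := hno (List.ofFn w) (List.length_ofFn) hw
    obtain ⟨i, hi⟩ := (List.mem_ofFn' w v).1 hv
    exact ⟨i, by rw [hi]; exact hvW⟩
  have h2 := (Set.ncard_le_ncard h1 (Set.toFinite _)).trans (hit_card m W)
  have h3 : (con H k m a b : ℝ) ≤ m * (W.card * (Fintype.card V : ℝ) ^ (m - 1)) := by
    unfold con
    exact_mod_cast h2
  have hnpos : (0 : ℝ) < Fintype.card V := by exact_mod_cast hV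
  rcases Nat.eq_zero_or_pos m with h0 | h0
  · subst h0
    simp only [Nat.cast_zero, zero_mul, pow_zero, mul_one] at h3 h
    linarith
  · obtain ⟨j, rfl⟩ := Nat.exists_eq_succ_of_ne_zero h0.ne'
    rw [Nat.succ_sub_one] at h3
    have h4 : c * Fintype.card V * (Fintype.card V : ℝ) ^ j ≤
        ((j + 1 : ℕ) : ℝ) * W.card * (Fintype.card V : ℝ) ^ j := by
      calc c * Fintype.card V * (Fintype.card V : ℝ) ^ j
          = c * (Fintype.card V : ℝ) ^ (j + 1) := by ring
        _ ≤ _ := h.trans h3
        _ = _ := by ring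
    have h5 := le_of_mul_le_mul_right h4 (pow_pos hnpos j)
    have h6 : ((j + 1 : ℕ) : ℝ) * W.card ≤ M * C := by
      have : (j + 1) * W.card ≤ M * C := Nat.mul_le_mul hm hW
      exact_mod_cast this
    linarith

end Pool.Agent.KK.H89
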