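import Pool.Agent.Helper89_KK.ASM1

/-! Squad KK, row ASM: the sequence of the segments. -/

set_option autoImplicit false

open scoped BigOperators

namespace Pool.Agent.KK.H89

variable {V : Type} [Fintype V] [DecidableEq V]

omit [Fintype V] in
/-- the skeleton of the sequence is a chain -/
theorem skel {q k : ℕ} {H : Finset (Finset V)} {T : Fin q → Set (List V)} (A : Fin q → List V)
    (j : ℕ → Fin q) (b : List V) (hb : b ∈ T (j 0)) (hbl : b.length = k - 1) :
    ∀ (t : ℕ) (x : Fin t → List V),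
      (∀ l : Fin t, Seg H k (T (j l)) (T (j (l + 1))) (x l)) →
      ∀ z : (Fin q ⊕ List V) × Fin q, (Sum.elim A id z.1).take (k - 1) ∈ T (j t) →
      List.IsChain (fun u v : (Fin q ⊕ List V) × Fin q =>
        (Sum.elim A id u.1).drop ((Sum.elim A id u.1).length - (k - 1)) ∈ T u.2 ∧
          (Sum.elim A id v.1).take (k - 1) ∈ T u.2)
        (((Sum.inr b, j 0) :: List.ofFn (fun l : Fin t =>
          ((Sum.inr (x l), j (l + 1)) : (Fin q ⊕ List V) × Fin q))) ++ [z]) := by
  intro t
  induction t with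
  | zero =>
    intro x _ z hz
    rw [List.ofFn_zero, List.singleton_append, List.isChain_cons_cons]
    refine ⟨⟨?_, hz⟩, List.isChain_singleton _⟩
    simp only [Sum.elim_inr, id_eq]
    rw [hbl, Nat.sub_self, List.drop_zero]
    exact hb
  | succ t ih =>
    intro x hx z hz
    rw [List.ofFn_succ', List.concat_eq_append]
    have h1 := ih (fun l => x l.castSucc) (fun l => hx l.castSucc)
      (Sum.inr (x (Fin.last t)), j (t + 1)) (hx (Fin.last t)).2.2.1
    have h2 : ((Sum.inr b, j 0) :: (List.ofFn (fun l : Fin t =>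
          ((Sum.inr (x l.castSucc), j (l.castSucc + 1)) : (Fin q ⊕ List V) × Fin q)) ++
            [(Sum.inr (x (Fin.last t)), j (Fin.last t + 1))])) ++ [z] =
        (((Sum.inr b, j 0) :: List.ofFn (fun l : Fin t =>
          ((Sum.inr (x l.castSucc), j (l + 1)) : (Fin q ⊕ List V) × Fin q))) ++
            [(Sum.inr (x (Fin.last t)), j (t + 1))]) ++ [z] := rfl
    rw [h2]
    refine h1.append (List.isChain_singleton _) ?_
    intro u hu v hv
    rw [List.getLast?_concat, Option.mem_some_iff] at hu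
    rw [List.head?_singleton, Option.mem_some_iff] at hv
    subst hu hv
    exact ⟨(hx (Fin.last t)).2.2.2, hz⟩

/-- the sequence of the segments -/
theorem seq_exists {q k : ℕ} {H : Finset (Finset V)} {T : Fin q → Set (List V)}
    (A : Fin q → List V) (hA : ∀ i, Seg H k (T i) (T i) (A i))
    (ps : List (List V)) (hps : ∀ p ∈ ps, ∃ i, Seg H k (T i) (T i) p)
    (t : ℕ) (j : ℕ → Fin q) (x : Fin t → List V) (hj : ∀ i, ∃ l ≤ t, j l = i)
    (hx : ∀ l : Fin t, Seg H k (T (j l)) (T (j (l + 1))) (x l))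
    (a b : List V) (ha : a ∈ T (j t)) (hb : b ∈ T (j 0)) (hal : a.length = k - 1)
    (hbl : b.length = k - 1) :
    ∃ S : List (Fin q ⊕ List V),
      S.Perm ((Sum.inr b :: (List.ofFn x).map Sum.inr) ++
        ((List.finRange q).map Sum.inl ++ ps.map Sum.inr)) ∧
      S.head? = some (Sum.inr b) ∧
      ((S ++ [Sum.inr a]).map (Sum.elim A id)).IsChain
        (fun p p' : List V => ∃ i, p.drop (p.length - (k - 1)) ∈ T i ∧
          p'.take (k - 1) ∈ T i) := by
  have haT : (Sum.elim A id (Sum.inr a : Fin q ⊕ List V)).take (k - 1) ∈ T (j t) := by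
    simp only [Sum.elim_inr, id_eq]
    rw [← hal, List.take_length]
    exact ha
  have h0 := skel A j b hb hbl t x hx (Sum.inr a, j t) haT
  obtain ⟨S', h1, h2, h3⟩ := ins
    (fun (u : Fin q ⊕ List V) i => (Sum.elim A id u).take (k - 1) ∈ T i)
    (fun (u : Fin q ⊕ List V) i =>
      (Sum.elim A id u).drop ((Sum.elim A id u).length - (k - 1)) ∈ T i)
    (Sum.inr a, j t) ((List.finRange q).map Sum.inl ++ ps.map Sum.inr)
    ((Sum.inr b, j 0) :: List.ofFn (fun l : Fin t =>
          ((Sum.inr (x l), j (l + 1)) : (Fin q ⊕ List V) × Fin q)))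
    (by
      intro i
      obtain ⟨l, hl, hli⟩ := hj i
      rcases Nat.eq_zero_or_pos l with h | h
      · subst h
        exact ⟨_, List.mem_cons_self, hli⟩
      · obtain ⟨l', rfl⟩ := Nat.exists_eq_succ_of_ne_zero h.ne'
        refine ⟨(Sum.inr (x ⟨l', hl⟩), j (l' + 1)), List.mem_cons_of_mem _ ?_, hli⟩
        rw [List.mem_ofFn']
        exact ⟨⟨l', hl⟩, rfl⟩) h0
    (by
      intro u hu
      rcases List.mem_append.1 hu with h | h
      · obtain ⟨i, -, rfl⟩ := List.mem_map.1 h
        exact ⟨i, (hA i).2.2.1, (hA i).2.2.2⟩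
      · obtain ⟨p, hp, rfl⟩ := List.mem_map.1 h
        obtain ⟨i, hi⟩ := hps p hp
        exact ⟨i, hi.2.2.1, hi.2.2.2⟩)
  refine ⟨S'.map Prod.fst, ?_, ?_, ?_⟩
  · refine h1.trans (List.Perm.of_eq ?_)
    rw [List.map_cons, List.map_ofFn, List.map_ofFn]
    rfl
  · rw [List.head?_map, h2]
    rfl
  · have h4 : (S'.map Prod.fst ++ [Sum.inr a] : List (Fin q ⊕ List V)) =
        (S' ++ [(Sum.inr a, j t)]).map Prod.fst := by simp
    rw [h4, List.map_map, List.isChain_map]
    exact h3.imp fun u v h => ⟨u.2, h⟩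

end Pool.Agent.KK.H89
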